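import Pool.Agent.Helper78_NDM.Stmts
import Pool.Agent.Helper32_OMP.Final

/-!
# Module MAI: the main theorem
-/

set_option autoImplicit false
set_option linter.unusedVariables false
set_option linter.unusedSectionVars false

namespace Pool.Agent.NDM.H51

open PowerSeries Finset Pool.Agent.Helper6_Mono Pool.Agent.Helper32_OMP

theorem lpk_ne {k : Type} [Field k] {σ : Type} [Fintype σ] (a : MvPolynomial σ k)
    (ha : a.totalDegree = 1) : lpk a ≠ 0 := by
  intro h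
  have h1 : a.totalDegree ≤ 0 := by
    unfold MvPolynomial.totalDegree
    refine Finset.sup_le fun s hs => ?_
    by_contra h2
    have h3 : (s.sum fun _ e => e) = 1 := by
      have h4 := MvPolynomial.le_totalDegree hs
      omega
    obtain ⟨l, hl⟩ := (Finsupp.sum_eq_one_iff _).mp h3
    rw [MvPolynomial.mem_support_iff] at hs
    apply hs
    rw [hl]
    exact congrFun h l
  omega

theorem rk_pos {k : Type} [Field k] {σ ι : Type} [Fintype σ] (L : ι → σ → k) (W : Finset ι)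
    (hW : W.Nonempty) (hL : ∀ i, L i ≠ 0) : 0 < rk L W := by
  obtain ⟨i, hi⟩ := hW
  unfold rk
  have : Nontrivial (spn L W) := by
    refine ⟨⟨⟨L i, Submodule.subset_span ⟨i, hi, rfl⟩⟩, 0, fun h => hL i ?_⟩⟩
    exact congrArg Subtype.val h
  exact Module.finrank_pos

theorem mai (hZ : ZraStmt) (hR : RtsStmt) : MainStmt := by
  classical
  intro k _ _ σ ι _ _ _ a ha m hm c hc
  obtain ⟨P, hP, hZ'⟩ := zeta_rat (MvPolynomial.C c * ∏ i, a i ^ m i)
    {q | ∃ (z : σ → ℂ) (F W : Finset ι),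
        (∀ i, MvPolynomial.aeval z (a i) = 0 ↔ i ∈ F) ∧ W.Nonempty ∧
        ClIn (fun i => lpk (a i)) F W ∧ ConnS (fun i => lpk (a i)) W ∧
        q = (rk (fun i => lpk (a i)) W : ℚ) / ((∑ i ∈ W, m i : ℕ) : ℚ)}
    (by
      rintro x ⟨z, F, W, h1, h2, h3, h4, rfl⟩
      have h5 : 0 < rk (fun i => lpk (a i)) W := rk_pos _ W h2 fun i => lpk_ne _ (ha i)
      have h6 : 0 < ∑ i ∈ W, m i := Finset.sum_pos (fun i _ => hm i) h2
      have h5' : (0 : ℚ) < (rk (fun i => lpk (a i)) W : ℚ) := by exact_mod_cast h5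
      have h6' : (0 : ℚ) < ((∑ i ∈ W, m i : ℕ) : ℚ) := by exact_mod_cast h6
      exact div_pos h5' h6')
    (fun χ => by
      obtain ⟨s, hs0, hs1, hs2⟩ := hZ k σ ι (MM (MvPolynomial.C c * ∏ i, a i ^ m i))
        (LL (MvPolynomial.C c * ∏ i, a i ^ m i)) χ a ha m hm c hc
      exact ⟨s, hs0, hs1, hs2⟩)
  refine ⟨P, fun p hp => ?_, hZ'⟩
  obtain ⟨h1, h2, h3⟩ := hP p hp
  refine ⟨h1, h2, ?_⟩
  obtain ⟨z, F, W, h4, h5, h6, h7, h8⟩ := h3
  have h9 := hR k σ ι a ha m hm c hc z F W h4 h5 h6 h7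
  have h10 : (-((rk (fun i => lpk (a i)) W : ℕ) : ℂ) / ((∑ i ∈ W, m i : ℕ) : ℂ))
      = (p.1 : ℂ) / (p.2 : ℂ) := by
    have h11 : ((-((p.1 : ℚ) / (p.2 : ℚ)) : ℚ) : ℂ)
        = (((rk (fun i => lpk (a i)) W : ℚ) / ((∑ i ∈ W, m i : ℕ) : ℚ) : ℚ) : ℂ) := by
      rw [h8]
    push_cast at h11 ⊢
    rw [neg_div, ← h11, neg_neg]
  rw [h10] at h9
  exact h9

end Pool.Agent.NDM.H51
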