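import Pool.Agent.Helper78_NDM.Stmts

/-!
# Module ZEM: strata without complex points are empty
-/

set_option autoImplicit false
set_option linter.unusedVariables false
set_option linter.unusedSectionVars false

namespace Pool.Agent.NDM.H51

open PowerSeries Finset Pool.Agent.Helper6_Mono Pool.Agent.Helper32_OMP

theorem zem (hN : NulStmt) : ZemStmt := by
  classical
  intro k _ _ σ ι _ _ a F h S _ _ x
  obtain ⟨N, hN'⟩ := hN k σ {e | ∃ i ∈ F, e = a i} (∏ i ∈ univ \ F, a i) (by
    intro z hz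
    have h1 := h z
    push Not at h1
    obtain ⟨i, hi⟩ := h1
    rw [map_prod]
    rcases hi with ⟨h2, h3⟩ | ⟨h2, h3⟩
    · exact Finset.prod_eq_zero (i := i) (by simp [h3]) h2
    · exact absurd (hz (a i) ⟨i, h3, rfl⟩) h2)
  have hx := x.2
  have h1 : ∀ q ∈ Ideal.span {e | ∃ i ∈ F, e = a i}, MvPolynomial.aeval x.1 q = 0 := by
    intro q hq
    have h2 : Ideal.span {e | ∃ i ∈ F, e = a i} ≤
        RingHom.ker (MvPolynomial.aeval (R := k) x.1) := by
      rw [Ideal.span_le]
      rintro _ ⟨i, hi, rfl⟩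
      exact (hx i).1 hi
    exact h2 hq
  have h3 := h1 _ hN'
  have h4 : IsUnit (MvPolynomial.aeval x.1 ((∏ i ∈ univ \ F, a i) ^ N)) := by
    rw [map_pow, map_prod]
    refine IsUnit.pow _ ?_
    rw [IsUnit.prod_iff]
    intro i hi
    exact (hx i).2 (by simpa using hi)
  rw [h3] at h4
  obtain ⟨u, hu⟩ := h4.exists_right_inv
  rw [zero_mul] at hu
  exact hu.symm

end Pool.Agent.NDM.H51
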